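import Pool.Agent.H55.CG.Targets

/-!
# The block functional bounds the functional of every pattern (PAT, board cog_modules)
-/

set_option autoImplicit false

open MeasureTheory ProbabilityTheory Filter Topology
open Pool.Agent.H95 Pool.Agent.H95.Cop Pool.Agent.H55.CG

namespace Pool.Agent.H7.CG

private theorem sh_sh (s t : ℕ) (x : ℕ → ℝ) : shift s (shift t x) = shift (t + s) x := by
  funext i
  unfold shift
  congr 1
  omega

private theorem xb_eq (K : PMF ℕ) (ℓ m : ℕ) (x : ℕ → ℝ) (hm : 1 ≤ m) :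
    XB K ℓ m x = Xg K ℓ false 1 m x := by
  unfold XB Xg
  have e1 : (2 * 1 - 1) * ℓ = ℓ := by omega
  have e2 : 2 * 1 * ℓ = 2 * ℓ := by ring
  have e3 : 2 * (1 + m) - 1 = 2 * m + 1 := by omega
  have e4 : 2 * (1 + m) = 2 * m + 2 := by ring
  rw [e1, e2, e3, e4]
  refine Finset.sum_congr rfl fun y hy => ?_
  rw [Finset.mem_Ico] at hy
  rw [if_neg (by simp), Real.exp_zero, one_mul]
  refine Finset.sum_congr rfl fun z hz => ?_
  rw [Finset.mem_Ico] at hz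
  rw [if_pos]
  have h1 : 2 * ℓ ≤ (2 * m + 1) * ℓ := Nat.mul_le_mul_right ℓ (by omega)
  omega

private theorem gen (hBAS : T_BAS) (hSTP : T_STP) (hGGS : T_GGS) (K : PMF ℕ) (ℓ : ℕ) (α a : ℝ)
    (hl : 1 ≤ ℓ) (ha : 0 ≤ a)
    (h : ∀ n j : ℕ, 1 ≤ n → (2 * n - 1) * ℓ ≤ j → j ≤ (2 * n + 1) * ℓ →
      a * (2 * (n : ℝ) + 1) ^ (-(1 + α)) ≤ kk K j / 2 * VV K ℓ) (L : List (ℕ × ℕ)) :
    (∀ p ∈ L, 1 ≤ p.1 ∧ 1 ≤ p.2) → ∀ (t : Bool) (n : ℕ) (x : ℕ → ℝ), 1 ≤ n →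
    VV K ℓ * (dc α a L * (gg K ℓ t n false x * ff K ℓ L (shift (2 * n * ℓ) x))) ≤
      Xg K ℓ t n (tot L) x := by
  have hg0 := (hGGS K ℓ hl).2.1
  induction L with
  | nil =>
    intro _ t n x hn
    have h1 := hBAS K ℓ hl t n x hn
    change VV K ℓ * (1 * (gg K ℓ t n false x * 1)) ≤ Xg K ℓ t n 0 x
    rw [one_mul, mul_one]
    exact h1
  | cons p L ih =>
    intro hp t n x hn
    obtain ⟨u, v⟩ := p
    obtain ⟨hu, hv⟩ := hp (u, v) (List.mem_cons_self)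
    change 1 ≤ u at hu
    change 1 ≤ v at hv
    obtain ⟨x', hx'⟩ : ∃ x' : ℕ → ℝ, x' = shift (2 * n * ℓ) x := ⟨_, rfl⟩
    obtain ⟨x'', hx''⟩ : ∃ x'' : ℕ → ℝ, x'' = shift (2 * u * ℓ) x' := ⟨_, rfl⟩
    have hb : 0 ≤ a * (2 * (u : ℝ) + 1) ^ (-(1 + α)) := by positivity
    have hb' : 0 ≤ a * (2 * (v : ℝ) + 1) ^ (-(1 + α)) := by positivity
    obtain ⟨b, hbd⟩ : ∃ b : ℝ, b = a * (2 * (u : ℝ) + 1) ^ (-(1 + α)) := ⟨_, rfl⟩
    obtain ⟨b', hbd'⟩ : ∃ b' : ℝ, b' = a * (2 * (v : ℝ) + 1) ^ (-(1 + α)) := ⟨_, rfl⟩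
    have h1 := hSTP K ℓ hl t false n u (v + tot L) x hn hu _ hb (fun j h1 h2 => h u j hu h1 h2)
    have h2 := hSTP K ℓ hl false true u v (tot L) x' hu hv _ hb'
      (fun j h1 h2 => h v j hv h1 h2)
    have h3 := ih (fun p hpL => hp p (List.mem_cons_of_mem _ hpL)) true v x'' hv
    rw [← hbd, ← hx'] at h1
    rw [← hbd', ← hx''] at h2
    have h4 : shift (2 * v * ℓ) x'' = shift (2 * (u + v) * ℓ) x' := by
      rw [hx'', sh_sh]
      congr 1
      ring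
    rw [h4] at h3
    have e1 : dc α a ((u, v) :: L) = b * b' * dc α a L := by
      rw [hbd, hbd']
      rfl
    have e2 : ff K ℓ ((u, v) :: L) x' = gg K ℓ false u true x' * gg K ℓ true v false x'' *
        ff K ℓ L (shift (2 * (u + v) * ℓ) x') := by
      rw [hx'']
      rfl
    have e3 : tot ((u, v) :: L) = u + (v + tot L) := by
      change u + v + tot L = _
      ring
    rw [← hx', e1, e2, e3]
    rw [← hbd] at hb
    rw [← hbd'] at hb'
    have g1 := hg0 t n false x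
    have g2 := hg0 false u true x'
    have h5 : b' * gg K ℓ false u true x' *
        (VV K ℓ * (dc α a L * (gg K ℓ true v false x'' *
          ff K ℓ L (shift (2 * (u + v) * ℓ) x')))) ≤ Xg K ℓ false u (v + tot L) x' :=
      (mul_le_mul_of_nonneg_left h3 (mul_nonneg hb' g2)).trans h2
    have h6 := (mul_le_mul_of_nonneg_left h5 (mul_nonneg hb g1)).trans h1
    refine le_trans (le_of_eq ?_) h6
    ring

/-- PAT: the block functional bounds the functional of every pattern. -/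
theorem pf_PAT (hBAS : T_BAS) (hSTP : T_STP) (hGGS : T_GGS) (hPZS : T_PZS) : T_PAT := by
  intro K ℓ α a hl ha h q R L hq hL hne x
  have hL' : ∀ p ∈ L, 1 ≤ p.1 ∧ 1 ≤ p.2 := by
    intro p hp
    obtain ⟨h1, h2, h3, h4⟩ := hL p hp
    exact ⟨by omega, by omega⟩
  have h1 := gen hBAS hSTP hGGS K ℓ α a hl ha h L hL' false 1 x le_rfl
  rw [xb_eq K ℓ (tot L) x ?_]
  · have e1 : 2 * 1 * ℓ = 2 * ℓ := by ring
    rw [e1] at h1
    exact h1
  · cases L with
    | nil => exact absurd rfl hne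
    | cons p L =>
      obtain ⟨h2, h3⟩ := hL' p (List.mem_cons_self)
      change 1 ≤ p.1 + p.2 + tot L
      omega

end Pool.Agent.H7.CG
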